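import Mathlib

/-!
Finite monoids in which any two idempotents generating the same ideal satisfy `e f e = e` (the
pseudovariety `DO`): for an idempotent `e`, the element `e u e` is a unit of `e M e` as soon as `e`
lies in the ideal of `u`, and `u ↦ e u e` is multiplicative on the elements for which it is a unit.
-/

set_option autoImplicit false

namespace Pool.Agent.DOM38

variable {M : Type*} [Monoid M]

/-- `e` and `f` generate the same ideal. -/
def JEq (e f : M) : Prop := (∃ p q, e = p * f * q) ∧ ∃ p q, f = p * e * q

/-- Any two idempotents which generate the same ideal satisfy `e f e = e`. -/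
def IsDO (M : Type*) [Monoid M] : Prop :=
  ∀ e f : M, e * e = e → f * f = f → JEq e f → e * f * e = e

/-- `x` is a unit of the local monoid `e M e`, with inverse `a`. -/
def Inv (e x a : M) : Prop := e * a = a ∧ a * e = a ∧ x * a = e ∧ a * x = e

/-- a one-sided inverse in the finite local monoid is an inverse -/
theorem inv_of_left [Finite M] {e x a : M} (he : e * e = e) (hx : e * x = x)
    (ha : e * a = a) (ha' : a * e = a) (h : a * x = e) : Inv e x a := by
  refine ⟨ha, ha', ?_, h⟩
  let f : {m : M // e * m = m ∧ m * e = m} → {m : M // e * m = m ∧ m * e = m} := fun m =>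
    ⟨x * m.1, by rw [← mul_assoc, hx], by rw [mul_assoc, m.2.2]⟩
  have hinj : Function.Injective f := by
    intro m n hmn
    have h1 : x * m.1 = x * n.1 := congrArg Subtype.val hmn
    apply Subtype.ext
    have h2 : a * (x * m.1) = a * (x * n.1) := by rw [h1]
    rwa [← mul_assoc, ← mul_assoc, h, m.2.1, n.2.1] at h2
  obtain ⟨m, hm⟩ := (Finite.injective_iff_surjective.1 hinj) ⟨e, he, he⟩
  have h3 : x * m.1 = e := congrArg Subtype.val hm
  have h4 : a = m.1 := by
    calc a = a * e := ha'.symm
      _ = a * (x * m.1) := by rw [h3]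
      _ = m.1 := by rw [← mul_assoc, h, m.2.1]
  rw [h4, h3]

/-- (D1) If `e` lies in the ideal of `u`, then `e u e` is a unit of `e M e`. -/
theorem unit_of_ideal [Finite M] (hM : IsDO M) {e u : M} (he : e * e = e)
    (hu : ∃ p q, e = p * u * q) : ∃ a, Inv e (e * u * e) a := by
  obtain ⟨p₀, q₀, hpq⟩ := hu
  obtain ⟨p, hp⟩ : ∃ p, p = e * p₀ := ⟨_, rfl⟩
  obtain ⟨q, hq⟩ : ∃ q, q = q₀ * e := ⟨_, rfl⟩
  have hep : e * p = p := by rw [hp, ← mul_assoc, he]
  have hqe : q * e = q := by rw [hq, mul_assoc, he]
  have h0 : p * (u * q) = e := by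
    have : p * (u * q) = e * (p₀ * u * q₀) * e := by rw [hp, hq]; simp only [mul_assoc]
    rw [this, ← hpq, he, he]
  -- `f = u q p`
  have hf : (u * q * p) * (u * q * p) = u * q * p := by
    calc (u * q * p) * (u * q * p) = u * q * (p * (u * q)) * p := by simp only [mul_assoc]
      _ = u * (q * e) * p := by rw [h0]; simp only [mul_assoc]
      _ = u * q * p := by rw [hqe]
  have hJf : JEq e (u * q * p) := by
    refine ⟨⟨p, u * q, ?_⟩, u * q, p, ?_⟩
    · calc e = e * e := he.symm
        _ = (p * (u * q)) * (p * (u * q)) := by rw [h0]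
        _ = p * (u * q * p) * (u * q) := by simp only [mul_assoc]
    · calc u * q * p = u * (q * e) * p := by rw [hqe]
        _ = u * q * e * p := by simp only [mul_assoc]
  have h1 : e * (u * q * p) * e = e := hM e _ he hf hJf
  -- `h = q p e u`
  have hh : (q * p * e * u) * (q * p * e * u) = q * p * e * u := by
    calc (q * p * e * u) * (q * p * e * u) = q * p * (e * (u * q * p) * e) * u := by
          simp only [mul_assoc]
      _ = q * p * e * u := by rw [h1]
  have hJh : JEq e (q * p * e * u) := by
    refine ⟨⟨e * u, q * p * e, ?_⟩, q * p, u, rfl⟩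
    calc e = e * (u * q * p) * e := h1.symm
      _ = (e * (u * q * p) * e) * ((u * q * p) * e) := by
          rw [h1, ← mul_assoc, h1]
      _ = e * u * (q * p * e * u) * (q * p * e) := by simp only [mul_assoc]
  have h2 : e * (q * p * e * u) * e = e := hM e _ he hh hJh
  refine ⟨e * (q * p) * e, inv_of_left he ?_ ?_ ?_ ?_⟩
  · rw [← mul_assoc, ← mul_assoc, he]
  · rw [← mul_assoc, ← mul_assoc, he]
  · rw [mul_assoc, he]
  · calc e * (q * p) * e * (e * u * e) = e * (q * p) * (e * e) * u * e := by simp only [mul_assoc]
      _ = e * (q * p * e * u) * e := by rw [he]; simp only [mul_assoc]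
      _ = e := h2

/-- (D2) `u ↦ e u e` is multiplicative on the elements for which it is a unit. -/
theorem mul_local (hM : IsDO M) {e u v a b : M} (he : e * e = e)
    (ha : Inv e (e * u * e) a) (hb : Inv e (e * v * e) b) :
    e * (u * v) * e = (e * u * e) * (e * v * e) := by
  obtain ⟨ha1, ha2, ha3, ha4⟩ := ha
  obtain ⟨hb1, hb2, hb3, hb4⟩ := hb
  have hau : a * u * e = e := by
    calc a * u * e = a * e * u * e := by rw [ha2]
      _ = a * (e * u * e) := by simp only [mul_assoc]
      _ = e := ha4
  have hvb : e * v * b = e := by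
    calc e * v * b = e * v * (e * b) := by rw [hb1]
      _ = e * v * e * b := by simp only [mul_assoc]
      _ = e := hb3
  have hk : (a * u) * (a * u) = a * u := by
    calc (a * u) * (a * u) = a * u * (e * a) * u := by rw [ha1]; simp only [mul_assoc]
      _ = (a * u * e) * a * u := by simp only [mul_assoc]
      _ = a * u := by rw [hau, ha1]
  have hl : (v * b) * (v * b) = v * b := by
    calc (v * b) * (v * b) = v * (b * e) * v * b := by rw [hb2]; simp only [mul_assoc]
      _ = v * (b * (e * v * b)) := by simp only [mul_assoc]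
      _ = v * b := by rw [hvb, hb2]
  have hke : a * u * e = e := hau
  have hel : e * (v * b) = e := by rw [← mul_assoc]; exact hvb
  have hle : v * b * e = v * b := by rw [mul_assoc, hb2]
  have hek : e * (a * u) = a * u := by rw [← mul_assoc, ha1]
  have hJ : JEq (a * u) (v * b) := by
    constructor
    · -- `a u = (a u) … `
      refine ⟨e, a * u, ?_⟩
      rw [hel, hek]
    · refine ⟨v * b, e, ?_⟩
      rw [mul_assoc, hke, hle]
  have h1 : a * u * (v * b) * (a * u) = a * u := hM _ _ hk hl hJ
  have h2 : a * u * (v * b) = e := by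
    calc a * u * (v * b) = a * u * (v * b * e) := by rw [hle]
      _ = a * u * (v * b) * (a * u * e) := by rw [hke]; simp only [mul_assoc]
      _ = (a * u * (v * b) * (a * u)) * e := by simp only [mul_assoc]
      _ = e := by rw [h1, hke]
  calc e * (u * v) * e = e * u * v * e := by simp only [mul_assoc]
    _ = e * u * (v * e) := by simp only [mul_assoc]
    _ = (e * u * e) * (a * u * (v * b)) * (e * v * e) := ?_
    _ = (e * u * e) * (e * v * e) := by rw [h2, mul_assoc, ← mul_assoc e, ← mul_assoc e, he]
  have h3 : (e * u * e) * (a * u) = e * u := by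
    calc (e * u * e) * (a * u) = ((e * u * e) * a) * u := by simp only [mul_assoc]
      _ = e * u := by rw [ha3]
  have h4 : v * b * (e * v * e) = v * e := by
    calc v * b * (e * v * e) = v * (b * (e * v * e)) := by simp only [mul_assoc]
      _ = v * e := by rw [hb4]
  calc e * u * (v * e) = (e * u) * (v * e) := rfl
    _ = ((e * u * e) * (a * u)) * (v * b * (e * v * e)) := by rw [h3, h4]
    _ = (e * u * e) * (a * u * (v * b)) * (e * v * e) := by simp only [mul_assoc]

end Pool.Agent.DOM38
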